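import Pool.Agent.U145.EC.FullS

/-!
# Criteria for connectedness and weak contractibility
-/

set_option autoImplicit false
set_option maxHeartbeats 400000

open scoped ContDiff Topology NNReal

namespace Pool.Agent.U145.EC

open Pool.Agent.W71.EC Pool.Agent.W5h83.HG Pool.Agent.U530.HG

variable {n : ℕ}

/-- the set of the elements of type `R` relative to `ψ` is open and contractible -/
theorem open_contractible {R : R2 n →L[ℝ] R2 n} (hR : IsType R) (ψ : SympCt n) :
    IsOpen {φ : SympCt n | Rel R φ ψ} ∧ ContractibleSpace {φ : SympCt n // Rel R φ ψ} := by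
  have h : (fun φ : SympCt n => Rel R φ ψ) = fun φ => Unopp (lagS R) φ ψ := by
    funext φ
    exact propext (rel_iff R φ ψ)
  constructor
  · have h1 : {φ : SympCt n | Rel R φ ψ} = {φ | Unopp (lagS R) φ ψ} := by
      ext φ
      exact rel_iff R φ ψ
    rw [h1]
    exact isOpen_unopp _ ψ
  · rw [h]
    exact contractible_unopp hR.inSp ψ

/-- a family with values of some types -/
def TypedFam {C : Type*} [TopologicalSpace C] (θ : C → SympCt n) : Prop :=
  ∃ R : C → (R2 n →L[ℝ] R2 n), Continuous R ∧ (∀ c, IsType (R c)) ∧ ∀ c, Rel (R c) (θ c) one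

theorem typedFam_of_posX {C : Type*} [TopologicalSpace C] {θ : C → SympCt n}
    (h : ∀ c, PosX (θ c)) : TypedFam θ :=
  ⟨fun _ => projX, continuous_const, fun _ => projX_lag.isType, fun c =>
    (lagGood_iff_rel projX_lag _).1 (lagGood_projX_of_pos (h c))⟩

section

variable {C : Type*} [TopologicalSpace C] [CompactSpace C]

theorem homotopicRel_of_typed (A : Set C) (f g : C(C, SympCt n)) (l : List C(C, SympCt n))
    (hl : ∀ θ ∈ l, (∀ c ∈ A, θ c = one) ∧ TypedFam θ)
    (hf : ∀ c, f c = (l.map fun θ => θ c).foldr comp (g c)) : f.HomotopicRel g A := by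
  refine homotopicRel_of_prod A f g l (fun θ hθ => ⟨(hl θ hθ).1, ?_⟩) hf
  obtain ⟨R, h1, h2, h3⟩ := (hl θ hθ).2
  exact ⟨fun c => lagS (R c), lagS_continuous.comp h1, fun c => (h2 c).inSp,
    fun c => (rel_iff _ _ _).1 (h3 c)⟩

/-- **Homotopy classes.** -/
theorem classes_tfae (A : Set C) (f g : C(C, SympCt n)) : List.TFAE [
    f.HomotopicRel g A,
    ∃ l : List C(C, SympCt n), (∀ θ ∈ l, (∀ c ∈ A, θ c = one) ∧ ∀ c, PosX (θ c)) ∧
      ∀ c, f c = (l.map fun θ => θ c).foldr comp (g c),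
    ∃ l : List C(C, SympCt n), (∀ θ ∈ l, (∀ c ∈ A, θ c = one) ∧ TypedFam θ) ∧
      ∀ c, f c = (l.map fun θ => θ c).foldr comp (g c)] := by
  tfae_have 1 → 2 := (homotopicRel_iff_posX A f g).1
  tfae_have 2 → 3 := by
    rintro ⟨l, hl, hf⟩
    exact ⟨l, fun θ hθ => ⟨(hl θ hθ).1, typedFam_of_posX (hl θ hθ).2⟩, hf⟩
  tfae_have 3 → 1 := by
    rintro ⟨l, hl, hf⟩
    exact homotopicRel_of_typed A f g l hl hf
  tfae_finish

end

/-- finite products of elements of any types -/
def IsProdT (φ : SympCt n) : Prop :=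
  ∃ l : List (SympCt n), (∀ θ ∈ l, ∃ R : R2 n →L[ℝ] R2 n, IsType R ∧ Rel R θ one) ∧
    φ = l.foldr comp one

/-- finite products of elements with positive definite `∂X/∂x` -/
def IsProdP (φ : SympCt n) : Prop :=
  ∃ l : List (SympCt n), (∀ θ ∈ l, PosX θ) ∧ φ = l.foldr comp one

theorem joined_of_isProdT {φ : SympCt n} (h : IsProdT φ) : Joined one φ := by
  obtain ⟨l, hl, rfl⟩ := h
  induction l with
  | nil => exact Joined.refl _
  | cons θ l ih =>
    rw [List.foldr_cons]
    obtain ⟨R, hR, h1⟩ := hl θ List.mem_cons_self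
    refine (ih fun χ hχ => hl χ (List.mem_cons_of_mem _ hχ)).trans ?_
    have h2 := ((rel_iff _ _ _).1 h1).mul (l.foldr comp one)
    exact joined_rel (comp θ (l.foldr comp one)) (l.foldr comp one) (lagS R) hR.inSp
      fun p s hs v hv => h2 p v hv s hs

theorem isProdT_of_isProdP {φ : SympCt n} (h : IsProdP φ) : IsProdT φ := by
  obtain ⟨l, hl, rfl⟩ := h
  exact ⟨l, fun θ hθ => ⟨projX, projX_lag.isType,
    (lagGood_iff_rel projX_lag _).1 (lagGood_projX_of_pos (hl θ hθ))⟩, rfl⟩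

theorem isProdP_of_joined {φ : SympCt n} (h : Joined one φ) : IsProdP φ := by
  obtain ⟨γ⟩ := h
  let f : C(Unit, SympCt n) := ContinuousMap.const _ φ
  let g : C(Unit, SympCt n) := ContinuousMap.const _ one
  have h1 : f.HomotopicRel g ∅ := by
    refine ContinuousMap.HomotopicRel.symm ⟨⟨⟨⟨fun z => γ z.1, γ.continuous.comp continuous_fst⟩,
      fun c => ?_, fun c => ?_⟩, fun t c hc => hc.elim⟩⟩
    · exact γ.source
    · exact γ.target
  obtain ⟨l, hl, hf⟩ := (homotopicRel_iff_posX ∅ f g).1 h1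
  refine ⟨l.map (fun θ : C(Unit, SympCt n) => θ ()), ?_, hf ()⟩
  intro θ hθ
  obtain ⟨χ, hχ, rfl⟩ := List.mem_map.1 hθ
  exact (hl χ hχ).2 ()

/-- **Connectedness.** -/
theorem connected_tfaeT (n : ℕ) : List.TFAE [PathConnectedSpace (SympCt n),
    ∀ φ : SympCt n, IsProdP φ,
    ∀ φ : SympCt n, IsProdT φ,
    ∃ U : Set (R2 n), IsOpen U ∧ U.Nonempty ∧ ∃ ε : ℝ, 0 < ε ∧ ∀ φ : SympCt n,
      (φ ∈ supportedIn U ∧ ∀ x, ‖φ.toEquiv x - x‖ ≤ ε) → IsProdT φ] := by
  tfae_have 1 → 2 := by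
    intro h φ
    exact isProdP_of_joined (h.joined one φ)
  tfae_have 2 → 3 := fun h φ => isProdT_of_isProdP (h φ)
  tfae_have 3 → 4 := by
    intro h
    exact ⟨Set.univ, isOpen_univ, ⟨0, trivial⟩, 1, one_pos, fun φ _ => h φ⟩
  tfae_have 4 → 1 := by
    rintro ⟨U, hU, hne, ε, hε, h⟩
    have key : ∀ φ : SympCt n, Joined one φ := by
      intro φ
      obtain ⟨ψ, h1, h2, h3, -⟩ := exists_small φ U hU hne ε hε
      exact (joined_of_isProdT (h ψ ⟨h2, h3⟩)).trans h1.symm
    exact ⟨⟨one⟩, fun φ ψ => (key φ).symm.trans (key ψ)⟩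
  tfae_finish

/-- products of families with positive definite `∂X/∂x` -/
def IsProdFamP {C : Type*} [TopologicalSpace C] (A : Set C) (f : C(C, SympCt n)) : Prop :=
  ∃ l : List C(C, SympCt n), (∀ θ ∈ l, (∀ c ∈ A, θ c = one) ∧ ∀ c, PosX (θ c)) ∧
    ∀ c, f c = (l.map fun θ => θ c).foldr comp one

/-- products of typed families -/
def IsProdFamT {C : Type*} [TopologicalSpace C] (A : Set C) (f : C(C, SympCt n)) : Prop :=
  ∃ l : List C(C, SympCt n), (∀ θ ∈ l, (∀ c ∈ A, θ c = one) ∧ TypedFam θ) ∧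
    ∀ c, f c = (l.map fun θ => θ c).foldr comp one

/-- **Weak contractibility.** -/
theorem contractible_tfaeT (n : ℕ) : List.TFAE [
    ∀ k : ℕ, Subsingleton (HomotopyGroup (Fin k) (SympCt n) one),
    ∀ (k : ℕ) (f : C(Fin k → unitInterval, SympCt n)),
      (∀ y ∈ Cube.boundary (Fin k), f y = one) → IsProdFamP (Cube.boundary (Fin k)) f,
    ∀ (k : ℕ) (f : C(Fin k → unitInterval, SympCt n)),
      (∀ y ∈ Cube.boundary (Fin k), f y = one) → IsProdFamT (Cube.boundary (Fin k)) f,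
    ∃ U : Set (R2 n), IsOpen U ∧ U.Nonempty ∧ ∃ ε : ℝ, 0 < ε ∧
      ∀ (k : ℕ) (f : C(Fin k → unitInterval, SympCt n)),
        (∀ y ∈ Cube.boundary (Fin k), f y = one) →
        (∀ y, f y ∈ supportedIn U ∧ ∀ x, ‖(f y).toEquiv x - x‖ ≤ ε) →
        IsProdFamT (Cube.boundary (Fin k)) f] := by
  have hp : ∀ (k : ℕ) (f : C(Fin k → unitInterval, SympCt n)),
      f.HomotopicRel (ContinuousMap.const _ one) (Cube.boundary (Fin k)) ↔
        IsProdFamP (Cube.boundary (Fin k)) f := fun k f =>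
    homotopicRel_iff_posX _ f (ContinuousMap.const _ one)
  have ht : ∀ (k : ℕ) (f : C(Fin k → unitInterval, SympCt n)),
      IsProdFamT (Cube.boundary (Fin k)) f →
      f.HomotopicRel (ContinuousMap.const _ one) (Cube.boundary (Fin k)) := by
    rintro k f ⟨l, hl, hf⟩
    exact homotopicRel_of_typed _ f (ContinuousMap.const _ one) l hl hf
  have hh : (∀ k : ℕ, Subsingleton (HomotopyGroup (Fin k) (SympCt n) one)) ↔
      ∀ (k : ℕ) (f : C(Fin k → unitInterval, SympCt n)),
        (∀ y ∈ Cube.boundary (Fin k), f y = one) →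
        f.HomotopicRel (ContinuousMap.const _ one) (Cube.boundary (Fin k)) := by
    rw [weaklyContractible_iff]
    refine forall_congr' fun k => forall_congr' fun f => imp_congr_right fun _ => ?_
    exact (homotopicRel_iff_prod _ f (ContinuousMap.const _ one)).symm
  tfae_have 1 → 2 := fun h k f hf => (hp k f).1 (hh.1 h k f hf)
  tfae_have 2 → 3 := by
    intro h k f hf
    obtain ⟨l, hl, hfl⟩ := h k f hf
    exact ⟨l, fun θ hθ => ⟨(hl θ hθ).1, typedFam_of_posX (hl θ hθ).2⟩, hfl⟩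
  tfae_have 3 → 4 := fun h => ⟨Set.univ, isOpen_univ, ⟨0, trivial⟩, 1, one_pos,
    fun k f h1 _ => h k f h1⟩
  tfae_have 4 → 1 := by
    rintro ⟨U, hU, hne, ε, hε, h⟩
    refine hh.2 fun k f hf => ?_
    obtain ⟨g, h1, h2, h3, -⟩ := exists_small_family f U hU hne ε hε
    have h1' : f.HomotopicRel g (Cube.boundary (Fin k)) := by
      obtain ⟨H⟩ := h1
      exact ⟨⟨H.toHomotopy, fun t c hc => H.prop' t c (hf c hc)⟩⟩
    have hg : ∀ y ∈ Cube.boundary (Fin k), g y = one := by
      intro y hy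
      obtain ⟨H⟩ := h1'
      rw [← H.fst_eq_snd hy]
      exact hf y hy
    exact h1'.trans (ht k g (h k g hg fun y => ⟨h2 y, h3 y⟩))
  tfae_finish

/-- **Lagrangian blocks, families.** -/
theorem null_of_blocks {C : Type*} [TopologicalSpace C] [CompactSpace C] (f : C(C, SympCt n))
    {π : C → (R2 n →L[ℝ] R2 n)} (hc : Continuous π) (hπ : ∀ c, LagProj (π c))
    (h : ∀ c, LagGood (π c) (f c)) :
    f.HomotopicRel (ContinuousMap.const C one) {c | f c = one} :=
  homotopicRel_full f (ContinuousMap.const C one) hc (fun c => (hπ c).isType)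
    fun c => (lagGood_iff_rel (hπ c) _).1 (h c)

/-- **Omitted rays, families.** -/
theorem null_of_rays {C : Type*} [TopologicalSpace C] [CompactSpace C] (f : C(C, SympCt n))
    {J : C → (R2 n →L[ℝ] R2 n)} (hc : Continuous J) (hJ : ∀ c, CplxStr (J c)) {a b : C → ℝ}
    (ha : Continuous a) (hb : Continuous b) (hab : ∀ c, a c ^ 2 + b c ^ 2 = 1)
    (ha1 : ∀ c, a c ≠ 1) (h : ∀ c, OmitsRay (J c) (a c) (b c) (f c)) :
    f.HomotopicRel (ContinuousMap.const C one) {c | f c = one} := by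
  have h1 : Continuous (fun c => b c / (1 - a c)) :=
    hb.div (continuous_const.sub ha) fun c => sub_ne_zero.2 (Ne.symm (ha1 c))
  have h2 : Continuous (fun c => cplxR (J c) (b c / (1 - a c))) := by
    have h3 : (fun c => cplxR (J c) (b c / (1 - a c))) = fun c =>
        (1 / 2 : ℝ) • (ContinuousLinearMap.id ℝ (R2 n) + (b c / (1 - a c)) • J c) := rfl
    rw [h3]
    exact Continuous.const_smul (Continuous.add continuous_const (h1.smul hc)) (1 / 2 : ℝ)
  exact homotopicRel_full f (ContinuousMap.const C one) h2 (fun c => cplxR_isType (hJ c) _)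
    fun c => rel_of_omitsRay (hJ c) (hab c) (ha1 c) (h c)

end Pool.Agent.U145.EC
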