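import Pool.Agent.U145.EC.ProdS

/-!
# The sets of elements related to a fixed one are open and contractible
-/

set_option autoImplicit false
set_option maxHeartbeats 400000

open scoped ContDiff Topology NNReal

namespace Pool.Agent.U145.EC

open Pool.Agent.W71.EC Pool.Agent.W5h83.HG

variable {n : ℕ}

/-- the first combination of two elements -/
noncomputable def muS (S : R2 n →L[ℝ] R2 n) (φ ψ : SympCt n) (r : ℝ) (x : R2 n) : R2 n :=
  ψ.toEquiv x + (1 - r) • RR S (φ.toEquiv x - ψ.toEquiv x)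

/-- the second combination of two elements -/
noncomputable def muQ (S : R2 n →L[ℝ] R2 n) (φ ψ : SympCt n) (r : ℝ) (x : R2 n) : R2 n :=
  muS S φ ψ r x + r • (φ.toEquiv x - ψ.toEquiv x)

theorem exists_isoS (S : R2 n →L[ℝ] R2 n) (hS : InSp S) (φ ψ : SympCt n) (h : Unopp S φ ψ) :
    ∃ H : ℝ → SympCt n, H 0 = ψ ∧ H 1 = φ ∧
    (∀ t x, (H t).toEquiv (ψ.toEquiv.symm (muS S φ ψ (ta t) x)) = muQ S φ ψ (ta t) x) ∧
    (∀ t, Function.Surjective fun x => ψ.toEquiv.symm (muS S φ ψ (ta t) x)) ∧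
    (∀ t, Unopp S (H t) ψ) := by
  obtain ⟨K, hK, hφ⟩ := φ.compact_support
  obtain ⟨L, hL, hψ⟩ := ψ.compact_support
  have hc : ∀ χ : SympCt n, Continuous (fun _ : Unit => χ) := fun χ => continuous_const
  obtain ⟨H, _, _, h0, h1, hH, hs, hn⟩ := exists_homotopyS (P := Unit) (S := fun _ => S)
    continuous_const (fun _ => hS)
    (f := fun _ => φ) (g := fun _ => ψ) (JS.of_continuous (hc φ)) (JS.of_continuous (hc ψ))
    (hK.union hL) (fun _ => W5h83.HG.supp_mono Set.subset_union_left hφ)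
    (fun _ => W5h83.HG.supp_mono Set.subset_union_right hψ) (fun _ => h)
  exact ⟨fun t => H (t, ()), h0 (), h1 (), fun t x => hH t () x, fun t => hs t (),
    fun t => hn t ()⟩

/-- the canonical isotopy from `ψ` to `φ` -/
noncomputable def isoS (S : R2 n →L[ℝ] R2 n) (hS : InSp S) (φ ψ : SympCt n)
    (h : Unopp S φ ψ) : ℝ → SympCt n :=
  (exists_isoS S hS φ ψ h).choose

variable {S : R2 n →L[ℝ] R2 n} (hS : InSp S)

theorem isoS_zero (φ ψ : SympCt n) (h : Unopp S φ ψ) : isoS S hS φ ψ h 0 = ψ :=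
  (exists_isoS S hS φ ψ h).choose_spec.1

theorem isoS_one (φ ψ : SympCt n) (h : Unopp S φ ψ) : isoS S hS φ ψ h 1 = φ :=
  (exists_isoS S hS φ ψ h).choose_spec.2.1

theorem isoS_eq (φ ψ : SympCt n) (h : Unopp S φ ψ) (t : ℝ) (x : R2 n) :
    (isoS S hS φ ψ h t).toEquiv (ψ.toEquiv.symm (muS S φ ψ (ta t) x)) = muQ S φ ψ (ta t) x :=
  (exists_isoS S hS φ ψ h).choose_spec.2.2.1 t x

include hS in
theorem isoS_surj (φ ψ : SympCt n) (h : Unopp S φ ψ) (t : ℝ) :
    Function.Surjective fun x => ψ.toEquiv.symm (muS S φ ψ (ta t) x) :=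
  (exists_isoS S hS φ ψ h).choose_spec.2.2.2.1 t

theorem isoS_unopp (φ ψ : SympCt n) (h : Unopp S φ ψ) (t : ℝ) :
    Unopp S (isoS S hS φ ψ h t) ψ :=
  (exists_isoS S hS φ ψ h).choose_spec.2.2.2.2 t

theorem isoS_unique (φ ψ : SympCt n) (h : Unopp S φ ψ) (t : ℝ) (χ : SympCt n)
    (hχ : ∀ x, χ.toEquiv (ψ.toEquiv.symm (muS S φ ψ (ta t) x)) = muQ S φ ψ (ta t) x) :
    χ = isoS S hS φ ψ h t := by
  refine SympCt.ext' fun y => ?_
  obtain ⟨x, rfl⟩ := isoS_surj hS φ ψ h t y
  exact (hχ x).trans (isoS_eq hS φ ψ h t x).symm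

section

variable {P : Type*} [TopologicalSpace P]

theorem isoS_continuous_of_supp {f g : P → SympCt n} (hf : Continuous f) (hg : Continuous g)
    {K : Set (R2 n)} (hK : IsCompact K) (hfK : ∀ p, f p ∈ supportedIn K)
    (hgK : ∀ p, g p ∈ supportedIn K) (hn : ∀ p, Unopp S (f p) (g p)) :
    Continuous (fun z : ℝ × P => isoS S hS (f z.2) (g z.2) (hn z.2) z.1) := by
  obtain ⟨H, hJ, hs, _, _, hH, _, _⟩ := exists_homotopyS (S := fun _ : P => S) continuous_const
    (fun _ => hS) (JS.of_continuous hf) (JS.of_continuous hg) hK hfK hgK hn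
  have hc : Continuous H := hJ.continuous K hK hs
  have h1 : (fun z : ℝ × P => isoS S hS (f z.2) (g z.2) (hn z.2) z.1) = H := by
    funext z
    exact (isoS_unique hS _ _ (hn z.2) z.1 (H z) fun x => hH z.1 z.2 x).symm
  rw [h1]
  exact hc

end

/-- being related to a fixed element is an open condition -/
theorem isOpen_unopp (S : R2 n →L[ℝ] R2 n) (ψ : SympCt n) :
    IsOpen {φ : SympCt n | Unopp S φ ψ} := by
  refine isOpen_iSup_iff.2 fun C => ?_
  refine isOpen_coinduced.2 ?_
  obtain ⟨L, hL, hψ⟩ := ψ.compact_support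
  let _ : TopologicalSpace (supportedIn (C : Set (R2 n))) := smoothTopology (C : Set (R2 n))
  have hK : IsCompact ((C : Set (R2 n)) ∪ L) := C.isCompact.union hL
  have h1 : Continuous (fun φ : supportedIn (C : Set (R2 n)) => φ.1) :=
    continuous_val _ C.isCompact
  rw [isOpen_iff_mem_nhds]
  intro φ hφ
  have h2 := eventually_unopp (T := supportedIn (C : Set (R2 n))) (C := Unit) (t₀ := φ)
    (fun χ _ => χ.1) (fun _ _ => ψ) (S := fun _ => S) continuous_const hK
    (fun χ _ => W5h83.HG.supp_mono Set.subset_union_left χ.2)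
    (fun _ _ => W5h83.HG.supp_mono Set.subset_union_right hψ)
    ((continuous_fderiv_family h1).comp
      (continuous_fst.prodMk (continuous_snd.comp continuous_snd)))
    ((continuous_fderiv_family (P := Unit) (f := fun _ => ψ) continuous_const).comp
      (continuous_snd))
    (fun _ => hφ)
  filter_upwards [h2] with χ hχ
  exact hχ ()

include hS in
theorem contractible_unopp (ψ : SympCt n) :
    ContractibleSpace {φ : SympCt n // Unopp S φ ψ} := by
  rw [contractible_iff_id_nullhomotopic]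
  let U : Set (SympCt n) := {φ | Unopp S φ ψ}
  have hc1 : ∀ φ : U, Continuous (fun t : unitInterval => isoS S hS φ.1 ψ φ.2 (t : ℝ)) := by
    intro φ
    obtain ⟨K, hK, hφ⟩ := φ.1.compact_support
    obtain ⟨L, hL, hψ⟩ := ψ.compact_support
    have h1 := isoS_continuous_of_supp hS (P := Unit) (f := fun _ => φ.1) (g := fun _ => ψ)
      continuous_const continuous_const (hK.union hL)
      (fun _ => W5h83.HG.supp_mono Set.subset_union_left hφ)
      (fun _ => W5h83.HG.supp_mono Set.subset_union_right hψ) (fun _ => φ.2)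
    exact h1.comp (continuous_subtype_val.prodMk (continuous_const (y := ())))
  let Φ : U → C(unitInterval, U) := fun φ =>
    ⟨fun t => ⟨isoS S hS φ.1 ψ φ.2 (t : ℝ), isoS_unopp hS φ.1 ψ φ.2 t⟩, (hc1 φ).subtype_mk _⟩
  have hΦ : Continuous Φ := by
    refine continuous_on_open (isOpen_unopp S ψ) Φ fun C => ?_
    let _ : TopologicalSpace (supportedIn (C : Set (R2 n))) := smoothTopology (C : Set (R2 n))
    obtain ⟨L, hL, hψ⟩ := ψ.compact_support
    refine ContinuousMap.continuous_of_continuous_uncurry _ ?_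
    refine Continuous.subtype_mk ?_ _
    have h1 := isoS_continuous_of_supp hS
      (P := {φ : supportedIn (C : Set (R2 n)) // φ.1 ∈ {φ : SympCt n | Unopp S φ ψ}})
      (f := fun φ => φ.1.1) (g := fun _ => ψ)
      ((continuous_val _ C.isCompact).comp continuous_subtype_val) continuous_const
      (C.isCompact.union hL) (fun φ => W5h83.HG.supp_mono Set.subset_union_left φ.1.2)
      (fun _ => W5h83.HG.supp_mono Set.subset_union_right hψ) (fun φ => φ.2)
    exact h1.comp ((continuous_subtype_val.comp continuous_snd).prodMk continuous_fst)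
  let Φ' : C(U, C(unitInterval, U)) := ⟨Φ, hΦ⟩
  have hF : Continuous (fun z : unitInterval × U => Φ z.2 z.1) :=
    (ContinuousMap.continuous_uncurry_of_continuous Φ').comp continuous_swap
  refine ⟨⟨ψ, Unopp.refl S ψ⟩, ContinuousMap.Homotopic.symm ⟨⟨⟨_, hF⟩, ?_, ?_⟩⟩⟩
  · intro φ
    refine Subtype.ext ?_
    change isoS S hS φ.1 ψ φ.2 ((0 : unitInterval) : ℝ) = ψ
    rw [Set.Icc.coe_zero, isoS_zero]
  · intro φ
    refine Subtype.ext ?_
    change isoS S hS φ.1 ψ φ.2 ((1 : unitInterval) : ℝ) = φ.1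
    rw [Set.Icc.coe_one, isoS_one]

end Pool.Agent.U145.EC
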