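import Pool.Agent.U145.EC.OpenS
import Pool.Agent.U145.EC.ContrS

/-!
# The final forms
-/

set_option autoImplicit false
set_option maxHeartbeats 400000

open scoped ContDiff Topology NNReal

namespace Pool.Agent.U145.EC

open Pool.Agent.W71.EC Pool.Agent.W5h83.HG

variable {n : ℕ}

/-- linear types: `ω(R u, v) + ω(u, R v) = ω(u, v)` -/
def IsType (R : R2 n →L[ℝ] R2 n) : Prop := ∀ u v, omega (R u) v + omega u (R v) = omega u v

theorem IsType.inSp {R : R2 n →L[ℝ] R2 n} (h : IsType R) : InSp (lagS R) := by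
  intro u v
  have h1 := h u v
  rw [lagS_apply, lagS_apply, omega_sub_left, omega_sub_right, omega_smul_left, omega_smul_right]
  linarith

/-- the relation of type `R` -/
def Rel (R : R2 n →L[ℝ] R2 n) (φ ψ : SympCt n) : Prop :=
  ∀ x v, v ≠ 0 → ∀ s ∈ Set.Icc (0 : ℝ) 1,
    fderiv ℝ ψ.toEquiv x v + s • R (fderiv ℝ φ.toEquiv x v - fderiv ℝ ψ.toEquiv x v) ≠ 0

theorem rel_iff (R : R2 n →L[ℝ] R2 n) (φ ψ : SympCt n) : Rel R φ ψ ↔ Unopp (lagS R) φ ψ := by
  unfold Rel Unopp
  simp only [RR_lagS]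

section

variable {C : Type*} [TopologicalSpace C] [CompactSpace C]

/-- **Families related by types.** -/
theorem homotopy_full (f g : C(C, SympCt n)) {R : C → (R2 n →L[ℝ] R2 n)}
    (hRc : Continuous R) (hR : ∀ c, IsType (R c)) (hn : ∀ c, Rel (R c) (f c) (g c)) :
    ∃ F : g.Homotopy f,
      (∀ t c x, (f c).toEquiv x = (g c).toEquiv x → (F (t, c)).toEquiv x = (g c).toEquiv x) ∧
      (∀ t c, Rel (R c) (F (t, c)) (g c)) ∧
      ∀ c (T : R2 n →L[ℝ] R2 n), (∀ v, R c (T v) = T (R c v)) →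
        (∀ x, (f c).toEquiv (T x) = T ((f c).toEquiv x)) →
        (∀ x, (g c).toEquiv (T x) = T ((g c).toEquiv x)) →
        ∀ t x, (F (t, c)).toEquiv (T x) = T ((F (t, c)).toEquiv x) := by
  obtain ⟨m, hm⟩ := supp_unif (isCompact_range f.continuous)
  obtain ⟨m', hm'⟩ := supp_unif (isCompact_range g.continuous)
  have hK := (isCompact_closedBall (0 : R2 n) m).union (isCompact_closedBall (0 : R2 n) m')
  obtain ⟨H, hJ, hs, h0, h1, hH, hsu, hu⟩ := exists_homotopyS (S := fun c => lagS (R c))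
    (lagS_continuous.comp hRc) (fun c => (hR c).inSp) (JS.of_continuous f.continuous)
    (JS.of_continuous g.continuous) hK
    (fun c => W5h83.HG.supp_mono Set.subset_union_left (hm _ ⟨c, rfl⟩))
    (fun c => W5h83.HG.supp_mono Set.subset_union_right (hm' _ ⟨c, rfl⟩))
    (fun c => (rel_iff _ _ _).1 (hn c))
  have hc : Continuous H := hJ.continuous _ hK hs
  have hc' : Continuous (fun z : unitInterval × C => H ((z.1 : ℝ), z.2)) :=
    hc.comp ((continuous_subtype_val.comp continuous_fst).prodMk continuous_snd)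
  have hnu : ∀ (t : ℝ) (c : C) (x : R2 n),
      nuS (fun c => lagS (R c)) (fun c => f c) (fun c => g c) t c x =
        (g c).toEquiv x + (1 - t) • R c ((f c).toEquiv x - (g c).toEquiv x) := by
    intro t c x
    simp only [nuS, RR_lagS]
  have hnq : ∀ (t : ℝ) (c : C) (x : R2 n),
      nuQ (fun c => lagS (R c)) (fun c => f c) (fun c => g c) t c x =
        (g c).toEquiv x + (1 - t) • R c ((f c).toEquiv x - (g c).toEquiv x) +
          t • ((f c).toEquiv x - (g c).toEquiv x) := by
    intro t c x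
    simp only [nuQ, hnu]
  refine ⟨⟨⟨_, hc'⟩, ?_, ?_⟩, ?_, ?_, ?_⟩
  · intro p
    change H (((0 : unitInterval) : ℝ), p) = g p
    rw [Set.Icc.coe_zero, h0]
  · intro p
    change H (((1 : unitInterval) : ℝ), p) = f p
    rw [Set.Icc.coe_one, h1]
  · intro t c x hx
    change (H ((t : ℝ), c)).toEquiv x = (g c).toEquiv x
    have h2 := hH (t : ℝ) c x
    rw [hnu, hnq, hx, sub_self, map_zero, smul_zero, smul_zero, add_zero, add_zero,
      Equiv.symm_apply_apply] at h2
    exact h2
  · intro t c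
    exact (rel_iff _ _ _).2 (hu t c)
  · intro c T hRT hfT hgT t x
    change (H ((t : ℝ), c)).toEquiv (T x) = T ((H ((t : ℝ), c)).toEquiv x)
    obtain ⟨z, rfl⟩ := hsu (t : ℝ) c x
    have hgT' : ∀ y, (g c).toEquiv.symm (T y) = T ((g c).toEquiv.symm y) := by
      intro y
      rw [Equiv.symm_apply_eq, hgT, Equiv.apply_symm_apply]
    have e1 : T (nuS (fun c => lagS (R c)) (fun c => f c) (fun c => g c) (ta t) c z) =
        nuS (fun c => lagS (R c)) (fun c => f c) (fun c => g c) (ta t) c (T z) := by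
      rw [hnu, hnu, hfT, hgT, ← map_sub, hRT, map_add, map_smul]
    have e2 : T (nuQ (fun c => lagS (R c)) (fun c => f c) (fun c => g c) (ta t) c z) =
        nuQ (fun c => lagS (R c)) (fun c => f c) (fun c => g c) (ta t) c (T z) := by
      rw [hnq, hnq, hfT, hgT, ← map_sub, hRT, map_add, map_add, map_smul, map_smul]
    change (H ((t : ℝ), c)).toEquiv (T ((g c).toEquiv.symm
      (nuS (fun c => lagS (R c)) (fun c => f c) (fun c => g c) (ta t) c z))) =
      T ((H ((t : ℝ), c)).toEquiv ((g c).toEquiv.symm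
      (nuS (fun c => lagS (R c)) (fun c => f c) (fun c => g c) (ta t) c z)))
    rw [← hgT', e1, hH, hH, e2]

/-- the homotopy is relative to the set where the families agree -/
theorem homotopicRel_full (f g : C(C, SympCt n)) {R : C → (R2 n →L[ℝ] R2 n)}
    (hRc : Continuous R) (hR : ∀ c, IsType (R c)) (hn : ∀ c, Rel (R c) (f c) (g c)) :
    f.HomotopicRel g {c | f c = g c} := by
  obtain ⟨F, h1, -, -⟩ := homotopy_full f g hRc hR hn
  refine ContinuousMap.HomotopicRel.symm ⟨⟨F, ?_⟩⟩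
  intro t c hc
  refine SympCt.ext' fun x => h1 t c x ?_
  have hc' : f c = g c := hc
  rw [hc']

end

/-! ### Lagrangian splittings -/

theorem LagProj.isType {π : R2 n →L[ℝ] R2 n} (h : LagProj π) : IsType π := by
  intro u v
  have h1 := h.range u v
  have h2 := h.ker u v
  rw [omega_sub_left, omega_sub_right, omega_sub_right] at h2
  linarith

theorem lagGood_iff_rel {π : R2 n →L[ℝ] R2 n} (h : LagProj π) (θ : SympCt n) :
    LagGood π θ ↔ Rel π θ one := by
  rw [rel_iff, lagGood_iff h]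

theorem lagUnopp_iff_rel {π : R2 n →L[ℝ] R2 n} (h : LagProj π) (φ ψ : SympCt n) :
    LagUnopp π φ ψ ↔ Rel π φ ψ := by
  rw [rel_iff, lagUnopp_iff h]

/-! ### Complex structures -/

/-- `J` is a linear complex structure in the symplectic group -/
structure CplxStr (J : R2 n →L[ℝ] R2 n) : Prop where
  sq : ∀ v, J (J v) = -v
  symp : ∀ u v, omega (J u) (J v) = omega u v

theorem CplxStr.inSp {J : R2 n →L[ℝ] R2 n} (h : CplxStr J) : InSp J := by
  intro u v
  have h1 := h.symp u (J v)
  rw [h.sq] at h1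
  have h2 : omega (J u) (-v) = -omega (J u) v := by
    have := omega_smul_right (-1 : ℝ) (J u) v
    rw [neg_one_smul] at this
    rw [this]
    ring
  rw [h2] at h1
  linarith

/-- the type `(1 + τ J) / 2` -/
noncomputable def cplxR (J : R2 n →L[ℝ] R2 n) (τ : ℝ) : R2 n →L[ℝ] R2 n :=
  (1 / 2 : ℝ) • (ContinuousLinearMap.id ℝ (R2 n) + τ • J)

theorem cplxR_apply (J : R2 n →L[ℝ] R2 n) (τ : ℝ) (v : R2 n) :
    cplxR J τ v = (1 / 2 : ℝ) • (v + τ • J v) := rfl

theorem cplxR_isType {J : R2 n →L[ℝ] R2 n} (h : CplxStr J) (τ : ℝ) : IsType (cplxR J τ) := by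
  intro u v
  have h1 := h.inSp u v
  rw [cplxR_apply, cplxR_apply, omega_smul_left, omega_smul_right, omega_add_left,
    omega_add_right, omega_smul_left, omega_smul_right]
  linear_combination (τ / 2) * h1

/-- no differential multiplies a vector by `1 + k (z - 1)`, `k ≥ 1`, `z = a + b i` -/
def OmitsRay (J : R2 n →L[ℝ] R2 n) (a b : ℝ) (θ : SympCt n) : Prop :=
  ∀ x v, v ≠ 0 → ∀ k : ℝ, 1 ≤ k →
    fderiv ℝ θ.toEquiv x v ≠ v + k • ((a - 1) • v + b • J v)

theorem rel_of_omitsRay {J : R2 n →L[ℝ] R2 n} (h : CplxStr J) {a b : ℝ} (hab : a ^ 2 + b ^ 2 = 1)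
    (ha : a ≠ 1) {θ : SympCt n} (hθ : OmitsRay J a b θ) : Rel (cplxR J (b / (1 - a))) θ one := by
  intro x v hv s hs h1
  have ha' : 1 - a ≠ 0 := sub_ne_zero.2 (Ne.symm ha)
  rw [fderiv_one] at h1
  set w := fderiv ℝ θ.toEquiv x v - v with hw
  set τ := b / (1 - a) with hτ
  have hb : b = τ * (1 - a) := by rw [hτ]; field_simp
  have hτ2 : (1 + τ ^ 2) * (1 - a) = 2 := by
    have h2 : (1 - a) * ((1 + τ ^ 2) * (1 - a)) = (1 - a) * 2 := by
      rw [hb] at hab
      linear_combination hab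
    exact mul_left_cancel₀ ha' h2
  rcases hs.1.eq_or_lt with h0 | h0
  · rw [← h0, zero_smul, add_zero] at h1
    exact hv h1
  -- apply `1 - τ J`
  have h3 : (v - τ • J v) + (s * (1 / 2) * (1 + τ ^ 2)) • w = 0 := by
    have h4 : (v + s • cplxR J τ w) - τ • J (v + s • cplxR J τ w) =
        (v - τ • J v) + (s * (1 / 2) * (1 + τ ^ 2)) • w := by
      rw [cplxR_apply, map_add, map_smul, map_smul, map_add, map_smul, h.sq]
      module
    rw [← h4, h1, map_zero, smul_zero, sub_zero]
  have h5 : w = s⁻¹ • ((a - 1) • v + b • J v) := by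
    have h6 : (1 - a) • ((v - τ • J v) + (s * (1 / 2) * (1 + τ ^ 2)) • w) =
        -((a - 1) • v + b • J v) + s • w := by
      have h7 : s • w = ((1 - a) * (s * (1 / 2) * (1 + τ ^ 2))) • w := by
        congr 1
        linear_combination (-s / 2) * hτ2
      rw [h7, hb]
      module
    rw [h3, smul_zero] at h6
    have h8 : s • w = (a - 1) • v + b • J v := by
      have h9 : s • w = ((a - 1) • v + b • J v) + (-((a - 1) • v + b • J v) + s • w) := by abel
      rw [h9, ← h6, add_zero]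
    rw [← h8, smul_smul, inv_mul_cancel₀ h0.ne', one_smul]
  refine hθ x v hv s⁻¹ (one_le_inv₀ h0 |>.2 hs.2) ?_
  rw [← h5, hw]
  abel

end Pool.Agent.U145.EC
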