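import Pool.Agent.U530.HG.Comm

/-!
# Generating functions of all linear types, in families
-/

set_option autoImplicit false
set_option maxHeartbeats 400000

open scoped ContDiff Topology NNReal

namespace Pool.Agent.U145.EC

open Pool.Agent.W71.EC Pool.Agent.W5h83.HG

variable {n : ℕ} {P : Type*} [TopologicalSpace P]

/-- the vector field of the chart of type `S` -/
theorem exists_XS (S : R2 n →L[ℝ] R2 n) (hS : InSp S) (K : Set (R2 n)) (hK : IsCompact K)
    (θ : SympCt n) (hθ : θ ∈ supportedIn K)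
    (hc : ∀ p, ∀ s ∈ Set.Icc (0 : ℝ) 1, ∀ v,
      v + s • RR S (fderiv ℝ θ.toEquiv p v - v) = 0 → v = 0) :
    ∃ X : R2 n → R2 n, CD S X K ∧
      ∃ m : R2 n ≃ R2 n, (∀ p, m p = p + RR S (θ.toEquiv p - p)) ∧ ContDiff ℝ ∞ m.symm ∧
        (∀ p, X (m p) = θ.toEquiv p - p) := by
  -- the midpoint map
  have hYs : ContDiff ℝ ∞ (fun p => p - θ.toEquiv p) := contDiff_id.sub θ.smooth
  have hYd : ∀ p v, fderiv ℝ (fun p => p - θ.toEquiv p) p v = v - fderiv ℝ θ.toEquiv p v := by
    intro p v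
    have h1 : HasFDerivAt (fun p => p - θ.toEquiv p)
      (ContinuousLinearMap.id ℝ (R2 n) - fderiv ℝ θ.toEquiv p) p :=
      (hasFDerivAt_id p).sub (hasFD θ p)
    rw [h1.fderiv]
    rfl
  have hm : Good (fun p => RR S ((fun p => p - θ.toEquiv p) p)) K :=
    { smooth := (RR S).contDiff.comp hYs
      compact := hK
      out := fun q hq => by
        change RR S (q - θ.toEquiv q) = 0
        rw [hθ q hq, sub_self, map_zero]
      inj := fun s hsI q v hv => by
        rw [fderiv_lin hYs, hYd] at hv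
        refine hc q s hsI v ?_
        rw [← hv, map_sub, map_sub]
        module }
  have h1I : (1 : ℝ) ∈ Set.Icc (0 : ℝ) 1 := ⟨zero_le_one, le_rfl⟩
  set m := per hm 1 h1I with hmdef
  have hms : ContDiff ℝ ∞ m := per_smooth _ _ _
  have hmi : ContDiff ℝ ∞ m.symm := per_symm_smooth _ _ _
  have hmp : ∀ p, m p = p + RR S (θ.toEquiv p - p) := by
    intro p
    rw [hmdef, per_apply, one_smul]
    change p - RR S (p - θ.toEquiv p) = _
    rw [← neg_sub (θ.toEquiv p) p, map_neg, sub_neg_eq_add]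
  have hmd : ∀ p v, fderiv ℝ m p v = v + RR S (fderiv ℝ θ.toEquiv p v - v) := by
    intro p v
    rw [hmdef, per_fderiv, fderiv_lin hYs, hYd, one_smul, ← neg_sub (fderiv ℝ θ.toEquiv p v) v,
      map_neg, sub_neg_eq_add]
  let X : R2 n → R2 n := fun q => θ.toEquiv (m.symm q) - m.symm q
  have hXs : ContDiff ℝ ∞ X := (θ.smooth.comp hmi).sub hmi
  have hXm : ∀ p, X (m p) = θ.toEquiv p - p := by
    intro p
    change θ.toEquiv (m.symm (m p)) - m.symm (m p) = _
    rw [Equiv.symm_apply_apply]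
  have hX0 : ∀ q, q ∉ K → X q = 0 := by
    intro q hq
    change θ.toEquiv (m.symm q) - m.symm q = 0
    have e1 : m.symm q = q := per_symm_out hm 1 h1I q hq
    rw [e1, hθ q hq, sub_self]
  have hXd : ∀ p w, fderiv ℝ X (m p) (fderiv ℝ m p w) = fderiv ℝ θ.toEquiv p w - w := by
    intro p w
    have h1 : HasFDerivAt X (fderiv ℝ X (m p)) (m p) :=
      (hXs.contDiffAt.differentiableAt (by norm_num)).hasFDerivAt
    have h2 : HasFDerivAt m (fderiv ℝ m p) p :=
      (hms.contDiffAt.differentiableAt (by norm_num)).hasFDerivAt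
    have h3 := h1.comp p h2
    have h4 : (X ∘ m : R2 n → R2 n) = fun p => θ.toEquiv p - p := by
      funext x
      exact hXm x
    rw [h4] at h3
    have h5 := h3.unique ((hasFD θ p).sub (hasFDerivAt_id p))
    exact DFunLike.congr_fun h5 w
  have hsur : ∀ p u, ∃ u', fderiv ℝ m p u' = u := by
    intro p u
    have hu := inv_left hms hmi (m p) u
    rw [Equiv.symm_apply_apply] at hu
    exact ⟨_, hu⟩
  have hXsp : IsSp X := by
    intro q u v
    obtain ⟨p, rfl⟩ := m.surjective q
    obtain ⟨u', rfl⟩ := hsur p u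
    obtain ⟨v', rfl⟩ := hsur p v
    rw [hXd, hXd, hmd, hmd]
    have e := θ.symplectic p u' v'
    have e2 := RR_sp hS (fderiv ℝ θ.toEquiv p u' - u') (fderiv ℝ θ.toEquiv p v' - v')
    have e3 : omega (fderiv ℝ θ.toEquiv p u' - u') (fderiv ℝ θ.toEquiv p v' - v') =
        omega (fderiv ℝ θ.toEquiv p u') (fderiv ℝ θ.toEquiv p v')
        - omega (fderiv ℝ θ.toEquiv p u') v' - omega u' (fderiv ℝ θ.toEquiv p v')
        + omega u' v' := by
      simp only [omega_sub_left, omega_sub_right]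
      ring
    rw [omega_add_right, omega_add_left]
    have e4 : omega (fderiv ℝ θ.toEquiv p u' - u') v' =
      omega (fderiv ℝ θ.toEquiv p u') v' - omega u' v' := omega_sub_left _ _ _
    have e5 : omega u' (fderiv ℝ θ.toEquiv p v' - v') =
      omega u' (fderiv ℝ θ.toEquiv p v') - omega u' v' := omega_sub_right _ _ _
    rw [e4, e5]
    linear_combination e2 + e3 + e
  have hgood : Good (fun q => RR S (X q)) K :=
    { smooth := (RR S).contDiff.comp hXs
      compact := hK
      out := fun q hq => by rw [hX0 q hq, map_zero]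
      inj := fun s hsI q v hv => by
        rw [fderiv_lin hXs] at hv
        obtain ⟨p, rfl⟩ := m.surjective q
        obtain ⟨v', rfl⟩ := hsur p v
        rw [hXd, hmd] at hv
        have h1 : v' = 0 := by
          refine hc p (1 - s) ⟨by linarith [hsI.2], by linarith [hsI.1]⟩ v' ?_
          rw [← hv]
          module
        rw [h1, map_zero] }
  exact ⟨X, ⟨hS, hXs, hXsp, hK, hX0, hgood⟩, m, hmp, hmi, hXm⟩

/-- the relation of type `S` -/
def Unopp (S : R2 n →L[ℝ] R2 n) (φ ψ : SympCt n) : Prop :=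
  ∀ x v, v ≠ 0 → ∀ s ∈ Set.Icc (0 : ℝ) 1,
    fderiv ℝ ψ.toEquiv x v + s • RR S (fderiv ℝ φ.toEquiv x v - fderiv ℝ ψ.toEquiv x v) ≠ 0

theorem Unopp.refl (S : R2 n →L[ℝ] R2 n) (φ : SympCt n) : Unopp S φ φ := by
  intro x v hv s _
  rw [sub_self, map_zero, smul_zero, add_zero]
  exact fderiv_ne_zero φ x hv

theorem Unopp.crit {S : R2 n →L[ℝ] R2 n} {φ ψ : SympCt n} (h : Unopp S φ ψ) :
    ∀ p, ∀ s ∈ Set.Icc (0 : ℝ) 1, ∀ v, v + s • RR S
      (fderiv ℝ (comp φ (inv ψ)).toEquiv p v - v) = 0 → v = 0 := by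
  intro p s hs v hv
  obtain ⟨x, rfl⟩ := ψ.toEquiv.surjective p
  have e1 : HasFDerivAt φ.toEquiv (fderiv ℝ φ.toEquiv (ψ.toEquiv.symm (ψ.toEquiv x)))
      (ψ.toEquiv.symm (ψ.toEquiv x)) := hasFD φ _
  have e2 : HasFDerivAt ψ.toEquiv.symm (fderiv ℝ ψ.toEquiv.symm (ψ.toEquiv x))
      (ψ.toEquiv x) :=
    (ψ.smooth_symm.contDiffAt.differentiableAt (by norm_num)).hasFDerivAt
  have e3 := e1.comp (ψ.toEquiv x) e2
  have e4 : (((comp φ (inv ψ)).toEquiv : R2 n ≃ R2 n) : R2 n → R2 n) =
    φ.toEquiv ∘ ψ.toEquiv.symm := rfl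
  rw [e4, e3.fderiv, ContinuousLinearMap.comp_apply] at hv
  have e5 := inv_left ψ.smooth ψ.smooth_symm (ψ.toEquiv x) v
  rw [Equiv.symm_apply_apply] at e5 hv
  set w := fderiv ℝ ψ.toEquiv.symm (ψ.toEquiv x) v
  by_contra hne
  have hw : w ≠ 0 := by
    intro hw
    rw [hw, map_zero] at e5
    exact hne e5.symm
  refine h x w hw s hs ?_
  rw [e5]
  exact hv

theorem fderiv_one (x v : R2 n) : fderiv ℝ (one : SympCt n).toEquiv x v = v := by
  have h : (((one : SympCt n).toEquiv : R2 n ≃ R2 n) : R2 n → R2 n) = id := rfl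
  rw [h, fderiv_id]
  rfl

/-- the quotient of two related elements is related to the identity -/
theorem Unopp.quot {S : R2 n →L[ℝ] R2 n} {φ ψ : SympCt n} (h : Unopp S φ ψ) :
    Unopp S (comp φ (inv ψ)) one := by
  intro x v hv s hs h1
  rw [fderiv_one] at h1
  exact hv (h.crit x s hs v h1)

theorem Unopp.mul {S : R2 n →L[ℝ] R2 n} {θ : SympCt n} (h : Unopp S θ one) (ψ : SympCt n) :
    Unopp S (comp θ ψ) ψ := by
  intro x v hv s hs h1
  rw [comp_fderiv] at h1
  refine h (ψ.toEquiv x) (fderiv ℝ ψ.toEquiv x v) (fderiv_ne_zero ψ x hv) s hs ?_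
  rw [fderiv_one]
  exact h1

theorem RR_continuous : Continuous (RR : (R2 n →L[ℝ] R2 n) → (R2 n →L[ℝ] R2 n)) := by
  have : (RR : (R2 n →L[ℝ] R2 n) → (R2 n →L[ℝ] R2 n)) =
      fun S => (1 / 2 : ℝ) • (ContinuousLinearMap.id ℝ (R2 n) + S) := rfl
  rw [this]
  exact Continuous.const_smul (Continuous.add continuous_const continuous_id) (1 / 2 : ℝ)

theorem JC_RR {S : P → (R2 n →L[ℝ] R2 n)} (hS : Continuous S) {h : P → R2 n → R2 n} {k : ℕ}
    (hh : JC k (R2 n) h) : JC k (R2 n) (fun p x => RR (S p) (h p x)) :=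
  JC.bilin (F := R2 n →L[ℝ] R2 n) (G := R2 n) (H := R2 n)
    (ContinuousLinearMap.id ℝ (R2 n →L[ℝ] R2 n)) (JC.constX (RR_continuous.comp hS) k) hh

theorem JC_sub {h h' : P → R2 n → R2 n} {k : ℕ}
    (hh : JC k (R2 n) h) (hh' : JC k (R2 n) h') : JC k (R2 n) (fun p x => h p x - h' p x) := by
  have h1 := JC.add hh (JC.neg hh')
  have h2 : (fun p x => h p x - h' p x) = fun p x => h p x + -h' p x := by
    funext p x
    rw [sub_eq_add_neg]
  rw [h2]
  exact h1

/-- the first combination -/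
noncomputable def nuS (S : P → (R2 n →L[ℝ] R2 n)) (f g : P → SympCt n) (r : ℝ) (p : P)
    (x : R2 n) : R2 n :=
  (g p).toEquiv x + (1 - r) • RR (S p) ((f p).toEquiv x - (g p).toEquiv x)

/-- the second combination -/
noncomputable def nuQ (S : P → (R2 n →L[ℝ] R2 n)) (f g : P → SympCt n) (r : ℝ) (p : P)
    (x : R2 n) : R2 n :=
  nuS S f g r p x + r • ((f p).toEquiv x - (g p).toEquiv x)

/-- **The homotopy between two families related by type `S`.** -/
theorem exists_homotopyS {S : P → (R2 n →L[ℝ] R2 n)} (hSc : Continuous S)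
    (hS : ∀ p, InSp (S p)) {f g : P → SympCt n} (hf : JS f) (hg : JS g) {K : Set (R2 n)}
    (hK : IsCompact K) (hfK : ∀ p, f p ∈ supportedIn K) (hgK : ∀ p, g p ∈ supportedIn K)
    (hn : ∀ p, Unopp (S p) (f p) (g p)) :
    ∃ H : ℝ × P → SympCt n, JS H ∧ (∀ z, H z ∈ supportedIn K) ∧ (∀ p, H (0, p) = g p) ∧
      (∀ p, H (1, p) = f p) ∧
      (∀ t p x, (H (t, p)).toEquiv (((g p).toEquiv.symm) (nuS S f g (ta t) p x)) =
        nuQ S f g (ta t) p x) ∧
      (∀ t p, Function.Surjective fun x => ((g p).toEquiv.symm) (nuS S f g (ta t) p x)) ∧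
      (∀ t p, Unopp (S p) (H (t, p)) (g p)) := by
  choose X hCD m hm hmi hXm using fun p : P =>
    exists_XS (S p) (hS p) K hK (comp (f p) (inv (g p))) (comp_supp (hfK p) (inv_supp (hgK p)))
      (hn p).crit
  have hθ : ∀ p x, (comp (f p) (inv (g p))).toEquiv ((g p).toEquiv x) = (f p).toEquiv x := by
    intro p x
    change (f p).toEquiv ((g p).toEquiv.symm ((g p).toEquiv x)) = _
    rw [Equiv.symm_apply_apply]
  have hmg : ∀ p x, m p ((g p).toEquiv x) =
      (g p).toEquiv x + RR (S p) ((f p).toEquiv x - (g p).toEquiv x) := by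
    intro p x
    rw [hm, hθ]
  have hXg : ∀ p x, X p (m p ((g p).toEquiv x)) = (f p).toEquiv x - (g p).toEquiv x := by
    intro p x
    rw [hXm, hθ]
  have hP : ∀ t p x, per (hCD p).good (ta t) (ta_mem t) (m p ((g p).toEquiv x)) =
      nuS S f g (ta t) p x := by
    intro t p x
    rw [per_apply, hXg, hmg]
    simp only [nuS]
    module
  have hP' : ∀ t p x, per (hCD p).goodQ (ta t) (ta_mem t) (m p ((g p).toEquiv x)) =
      nuQ S f g (ta t) p x := by
    intro t p x
    rw [per_apply, RQ_apply, hXg, hmg]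
    simp only [nuQ, nuS]
    module
  let e : ℝ × P → R2 n ≃ R2 n := fun z =>
    (g z.2).toEquiv.trans ((m z.2).trans (per (hCD z.2).good (ta z.1) (ta_mem z.1)))
  have he : ∀ z x, e z x = nuS S f g (ta z.1) z.2 x := fun z x => hP z.1 z.2 x
  have hsp : Continuous (fun z : ℝ × P => ta z.1) := ta_smooth.continuous.comp continuous_fst
  have hf' : ∀ k, JC k (R2 n) (fun (z : ℝ × P) x => (f z.2).toEquiv x) := fun k =>
    (hf k).param continuous_snd
  have hg' : ∀ k, JC k (R2 n) (fun (z : ℝ × P) x => (g z.2).toEquiv x) := fun k =>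
    (hg k).param continuous_snd
  have hd' : ∀ k, JC k (R2 n) (fun (z : ℝ × P) x => (f z.2).toEquiv x - (g z.2).toEquiv x) :=
    fun k => JC_sub (hf' k) (hg' k)
  have hJn : ∀ k, JC k (R2 n) (fun (z : ℝ × P) x => nuS S f g (ta z.1) z.2 x) := fun k =>
    (hg' k).add ((JC_RR (hSc.comp continuous_snd) (hd' k)).smulP (continuous_const.sub hsp))
  have hJe : ∀ k, JC k (R2 n) (fun z x => e z x) := by
    intro k
    have : (fun (z : ℝ × P) x => e z x) = fun (z : ℝ × P) x => nuS S f g (ta z.1) z.2 x := by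
      funext z x
      exact he z x
    rw [this]
    exact hJn k
  have hJe' : ∀ k, JC k (R2 n) (fun (z : ℝ × P) x => nuQ S f g (ta z.1) z.2 x) := fun k =>
    (hJn k).add ((hd' k).smulP hsp)
  have he0 : ∀ z x, x ∉ K → e z x = x := by
    intro z x hx
    rw [he]
    simp only [nuS]
    rw [hfK z.2 x hx, hgK z.2 x hx, sub_self, map_zero, smul_zero, add_zero]
  have hJs : ∀ k, JC k (R2 n) (fun z x => (e z).symm x) := by
    refine JC.symm hJe (fun z => ?_) (cont_symm hK he0 (hJe 0))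
    have h1 : ContDiff ℝ ∞ (e z).symm :=
      (g z.2).smooth_symm.comp ((hmi z.2).comp
        (per_symm_smooth (hCD z.2).good (ta z.1) (ta_mem z.1)))
    exact h1.differentiable (by norm_num)
  let H : ℝ × P → SympCt n := fun z => comp (cay (hCD z.2) z.1) (g z.2)
  have hH : ∀ z x, (H z).toEquiv x =
      nuQ S f g (ta z.1) z.2 ((e z).symm ((g z.2).toEquiv x)) := by
    intro z x
    change per (hCD z.2).goodQ (ta z.1) (ta_mem z.1)
      ((per (hCD z.2).good (ta z.1) (ta_mem z.1)).symm ((g z.2).toEquiv x)) = _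
    rw [← hP']
    congr 1
    rw [Equiv.symm_apply_eq]
    exact ((e z).apply_symm_apply _).symm
  refine ⟨H, ?_, ?_, ?_, ?_, ?_, ?_, ?_⟩
  · intro k
    have : (fun (z : ℝ × P) x => (H z).toEquiv x) = fun (z : ℝ × P) x =>
        nuQ S f g (ta z.1) z.2 ((e z).symm ((g z.2).toEquiv x)) := by
      funext z x
      exact hH z x
    rw [this]
    exact JC.comp (hJe' k) (JC.comp (hJs k) (hg' k))
  · intro z
    exact comp_supp (cay_supp _ _) (hgK z.2)
  · intro p
    refine SympCt.ext' fun x => ?_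
    rw [hH]
    have h1 : ∀ y, nuQ S f g (ta (0, p).1) (0, p).2 y = e (0, p) y := by
      intro y
      rw [he]
      simp [nuQ, ta_zero]
    rw [h1, Equiv.apply_symm_apply]
  · intro p
    refine SympCt.ext' fun x => ?_
    rw [hH]
    have h1 : (e (1, p)).symm ((g p).toEquiv x) = x := by
      rw [Equiv.symm_apply_eq, he]
      simp only [nuS, ta_one]
      rw [sub_self, zero_smul, add_zero]
    rw [h1]
    simp only [nuQ, nuS, ta_one]
    rw [sub_self, zero_smul, add_zero, one_smul]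
    abel
  · intro t p x
    rw [hH]
    have h1 : (e (t, p)).symm ((g p).toEquiv ((g p).toEquiv.symm
        (nuS S f g (ta t) p x))) = x := by
      rw [Equiv.apply_symm_apply, Equiv.symm_apply_eq, he]
    rw [h1]
  · intro t p
    have h1 : (fun x => ((g p).toEquiv.symm) (nuS S f g (ta t) p x)) =
        (g p).toEquiv.symm ∘ e (t, p) := by
      funext x
      rw [Function.comp_apply, he]
    rw [h1]
    exact (g p).toEquiv.symm.surjective.comp (e (t, p)).surjective
  · intro t p x v hv r hr h1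
    change _ + r • RR (S p) (fderiv ℝ (comp (cay (hCD p) t) (g p)).toEquiv x v - _) = 0 at h1
    rw [comp_fderiv] at h1
    set y := (g p).toEquiv x with hy
    set w := fderiv ℝ (g p).toEquiv x v with hw
    have hw0 : w ≠ 0 := fderiv_ne_zero (g p) x hv
    -- the differential of the Cayley transform
    set A := per (hCD p).good (ta t) (ta_mem t) with hA
    set B := per (hCD p).goodQ (ta t) (ta_mem t) with hB
    have hAs : ContDiff ℝ ∞ A := per_smooth _ _ _
    have hAi : ContDiff ℝ ∞ A.symm := per_symm_smooth _ _ _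
    have hBs : ContDiff ℝ ∞ B := per_smooth _ _ _
    have h2 : fderiv ℝ (cay (hCD p) t).toEquiv y w =
        fderiv ℝ B (A.symm y) (fderiv ℝ A.symm y w) := by
      have h3 : HasFDerivAt B (fderiv ℝ B (A.symm y)) (A.symm y) :=
        (hBs.contDiffAt.differentiableAt (by norm_num)).hasFDerivAt
      have h4 : HasFDerivAt A.symm (fderiv ℝ A.symm y) y :=
        (hAi.contDiffAt.differentiableAt (by norm_num)).hasFDerivAt
      have h5 := h3.comp y h4
      have h6 : (((cay (hCD p) t).toEquiv : R2 n ≃ R2 n) : R2 n → R2 n) = B ∘ A.symm := rfl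
      rw [h6, h5.fderiv]
      rfl
    have h3 := inv_left hAs hAi y w
    rw [h2, ← h3] at h1
    have h7 : fderiv ℝ A.symm y (fderiv ℝ A (A.symm y) (fderiv ℝ A.symm y w)) =
        fderiv ℝ A.symm y w := by rw [h3]
    rw [h7] at h1
    set u := fderiv ℝ A.symm y w with hu
    have hu0 : u ≠ 0 := by
      intro h
      rw [h, map_zero] at h3
      exact hw0 h3.symm
    rw [hA, hB, per_fderiv, per_fderiv, fderiv_lin (hCD p).smooth, fderiv_lin (hCD p).smooth,
      RQ_apply] at h1
    set a := fderiv ℝ (X p) (A.symm y) u with ha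
    have h8 : u - ((1 - r) * ta t) • RR (S p) a = 0 := by
      have h9 : (u - ta t • (RR (S p) a - a)) - (u - ta t • RR (S p) a) = ta t • a := by module
      rw [h9, map_smul] at h1
      rw [← h1]
      module
    refine hu0 ((hCD p).good.inj ((1 - r) * ta t)
      ⟨mul_nonneg (by linarith [hr.2]) (ta_mem t).1,
        by nlinarith [hr.1, hr.2, (ta_mem t).1, (ta_mem t).2]⟩ (A.symm y) u ?_)
    rw [fderiv_lin (hCD p).smooth, ← ha]
    exact h8

end Pool.Agent.U145.EC
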