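import Pool.Agent.U145.EC.ProdS

/-!
# Lagrangian splittings
-/

set_option autoImplicit false
set_option maxHeartbeats 400000

open scoped ContDiff Topology NNReal

namespace Pool.Agent.U145.EC

open Pool.Agent.W71.EC Pool.Agent.W5h83.HG

variable {n : ℕ}

/-- `π` is the projection to a Lagrangian subspace along another one -/
structure LagProj (π : R2 n →L[ℝ] R2 n) : Prop where
  idem : ∀ v, π (π v) = π v
  range : ∀ u v, omega (π u) (π v) = 0
  ker : ∀ u v, omega (u - π u) (v - π v) = 0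

/-- the element `2 π - 1` of the Lie algebra -/
noncomputable def lagS (π : R2 n →L[ℝ] R2 n) : R2 n →L[ℝ] R2 n :=
  (2 : ℝ) • π - ContinuousLinearMap.id ℝ (R2 n)

theorem lagS_apply (π : R2 n →L[ℝ] R2 n) (v : R2 n) : lagS π v = (2 : ℝ) • π v - v := rfl

theorem RR_lagS (π : R2 n →L[ℝ] R2 n) (v : R2 n) : RR (lagS π) v = π v := by
  rw [RR_apply, lagS_apply]
  module

theorem LagProj.inSp {π : R2 n →L[ℝ] R2 n} (h : LagProj π) : InSp (lagS π) := by
  intro u v
  have h1 := h.range u v
  have h2 := h.ker u v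
  rw [omega_sub_left, omega_sub_right, omega_sub_right] at h2
  rw [lagS_apply, lagS_apply, omega_sub_left, omega_sub_right, omega_smul_left, omega_smul_right]
  linarith

theorem lagS_continuous : Continuous (lagS : (R2 n →L[ℝ] R2 n) → (R2 n →L[ℝ] R2 n)) := by
  have : (lagS : (R2 n →L[ℝ] R2 n) → (R2 n →L[ℝ] R2 n)) =
      fun π => (2 : ℝ) • π - ContinuousLinearMap.id ℝ (R2 n) := rfl
  rw [this]
  exact Continuous.sub (Continuous.const_smul continuous_id (2 : ℝ)) continuous_const

/-- the blocks of the differentials along the Lagrangian subspace are not opposite -/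
def LagUnopp (π : R2 n →L[ℝ] R2 n) (φ ψ : SympCt n) : Prop :=
  ∀ x v, v ≠ 0 → π (fderiv ℝ ψ.toEquiv x v) = fderiv ℝ ψ.toEquiv x v → ∀ c : ℝ, 0 ≤ c →
    π (fderiv ℝ φ.toEquiv x v) ≠ -(c • fderiv ℝ ψ.toEquiv x v)

theorem lagUnopp_iff {π : R2 n →L[ℝ] R2 n} (h : LagProj π) (φ ψ : SympCt n) :
    LagUnopp π φ ψ ↔ Unopp (lagS π) φ ψ := by
  constructor
  · intro hn x v hv s hs h1
    rw [RR_lagS, map_sub] at h1
    set w := fderiv ℝ ψ.toEquiv x v with hw
    set z := fderiv ℝ φ.toEquiv x v with hz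
    have h2 : π w = w := by
      have h3 : w = -(s • (π z - π w)) := eq_neg_of_add_eq_zero_left h1
      rw [h3, map_neg, map_smul, map_sub, h.idem, h.idem]
    rcases hs.1.eq_or_lt with h0 | h0
    · rw [← h0, zero_smul, add_zero] at h1
      exact fderiv_ne_zero ψ x hv h1
    · refine hn x v hv h2 ((1 - s) / s) (div_nonneg (by linarith [hs.2]) h0.le) ?_
      rw [h2] at h1
      have h4 : s • π z = -((1 - s) • w) := by
        have h5 : s • π z + (1 - s) • w = 0 := by
          rw [← h1]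
          module
        exact eq_neg_of_add_eq_zero_left h5
      have h5 : π z = s⁻¹ • (s • π z) := by
        rw [smul_smul, inv_mul_cancel₀ h0.ne', one_smul]
      rw [← hz, ← hw, h5, h4, smul_neg, smul_smul, div_eq_inv_mul]
  · intro hn x v hv h2 c hc h1
    refine hn x v hv (1 / (1 + c)) ⟨by positivity, by
      rw [div_le_one (by positivity)]
      linarith⟩ ?_
    rw [RR_lagS, map_sub, h1, h2]
    have h3 : fderiv ℝ ψ.toEquiv x v + (1 / (1 + c)) •
        (-(c • fderiv ℝ ψ.toEquiv x v) - fderiv ℝ ψ.toEquiv x v) =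
        (1 - (1 / (1 + c)) * (c + 1)) • fderiv ℝ ψ.toEquiv x v := by module
    rw [h3]
    have h4 : 1 - (1 / (1 + c)) * (c + 1) = 0 := by
      have : (1 + c) ≠ 0 := by positivity
      field_simp
      ring
    rw [h4, zero_smul]

/-- the block of each differential along the Lagrangian subspace has no eigenvalue in `(-∞, 0]` -/
def LagGood (π : R2 n →L[ℝ] R2 n) (θ : SympCt n) : Prop :=
  ∀ x v, v ≠ 0 → π v = v → ∀ c : ℝ, 0 ≤ c → π (fderiv ℝ θ.toEquiv x v) ≠ -(c • v)

theorem lagGood_iff {π : R2 n →L[ℝ] R2 n} (h : LagProj π) (θ : SympCt n) :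
    LagGood π θ ↔ Unopp (lagS π) θ one := by
  rw [← lagUnopp_iff h]
  unfold LagGood LagUnopp
  simp only [fderiv_one]

/-- the projection `(x, y) ↦ (x, 0)` -/
noncomputable def projX : R2 n →L[ℝ] R2 n :=
  (ContinuousLinearMap.inl ℝ (Fin n → ℝ) (Fin n → ℝ)).comp
    (ContinuousLinearMap.fst ℝ (Fin n → ℝ) (Fin n → ℝ))

theorem projX_apply (v : R2 n) : projX v = (v.1, 0) := rfl

theorem projX_lag : LagProj (projX : R2 n →L[ℝ] R2 n) where
  idem v := rfl
  range u v := by simp [projX_apply, omega]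
  ker u v := by simp [projX_apply, omega]

/-- if the symmetric part of the block is positive definite then the element is good -/
theorem lagGood_projX_of_pos {θ : SympCt n}
    (h : ∀ x (u : Fin n → ℝ), u ≠ 0 → 0 < ∑ i, u i * (fderiv ℝ θ.toEquiv x (u, 0)).1 i) :
    LagGood projX θ := by
  rintro x ⟨u, w⟩ hv hp c hc h1
  rw [projX_apply] at hp h1
  have hw : w = 0 := by simpa using (congrArg Prod.snd hp).symm
  subst hw
  have hu : u ≠ 0 := by
    intro hu
    exact hv (by rw [hu]; rfl)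
  have h2 := h x u hu
  have h3 : (fderiv ℝ θ.toEquiv x (u, 0)).1 = -(c • u) := congrArg Prod.fst h1
  rw [h3] at h2
  have h4 : ∑ i, u i * (-(c • u)) i = -(c * ∑ i, u i * u i) := by
    rw [Finset.mul_sum, ← Finset.sum_neg_distrib]
    refine Finset.sum_congr rfl fun i _ => ?_
    simp only [Pi.neg_apply, Pi.smul_apply, smul_eq_mul]
    ring
  rw [h4] at h2
  have h5 : 0 ≤ ∑ i, u i * u i := Finset.sum_nonneg fun i _ => mul_self_nonneg _
  nlinarith [mul_nonneg hc h5]

end Pool.Agent.U145.EC
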