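import Pool.Agent.U145.EC.LagS

/-!
# Products of families with values in an open neighbourhood of the identity
-/

set_option autoImplicit false
set_option maxHeartbeats 400000

open scoped ContDiff Topology NNReal

namespace Pool.Agent.U145.EC

open Pool.Agent.W71.EC Pool.Agent.W5h83.HG

variable {n : ℕ}

section

variable {C : Type*} [TopologicalSpace C]

/-- equal on `A` and quotient in `W` -/
def StepW (W : Set (SympCt n)) (A : Set C) (f g : C(C, SympCt n)) : Prop :=
  (∀ c ∈ A, f c = g c) ∧ (∀ c, comp (f c) (inv (g c)) ∈ W) ∧ ∀ c, comp (g c) (inv (f c)) ∈ W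

theorem StepW.symm {W : Set (SympCt n)} {A : Set C} {f g : C(C, SympCt n)}
    (h : StepW W A f g) : StepW W A g f :=
  ⟨fun c hc => (h.1 c hc).symm, h.2.2, h.2.1⟩

theorem chainW_of_homotopicRel [CompactSpace C] {W : Set (SympCt n)} (hW : IsOpen W)
    (h1W : one ∈ W) (A : Set C) (f g : C(C, SympCt n)) (h : f.HomotopicRel g A) :
    Relation.ReflTransGen (StepW W A) f g := by
  obtain ⟨F⟩ := h
  let G : unitInterval → C(C, SympCt n) := fun t => F.toHomotopy.curry t
  have hG : ∀ t c, G t c = F (t, c) := fun _ _ => rfl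
  have hGA : ∀ s t, ∀ c ∈ A, G s c = G t c := by
    intro s t c hc
    rw [hG, hG, F.eq_fst s hc, F.eq_fst t hc]
  let F' : C(unitInterval × C, SympCt n) := F.toContinuousMap
  have hF' : ∀ z, F' z = F z := fun _ => rfl
  have key : ∀ t, ∀ᶠ s in 𝓝 t, StepW W A (G s) (G t) := by
    intro t
    let Gt : C(unitInterval × C, SympCt n) := (G t).comp ⟨Prod.snd, continuous_snd⟩
    have hGt : ∀ s c, Gt (s, c) = G t c := fun _ _ => rfl
    have h1 := isCompact_univ.eventually_forall_of_forall_eventually (x₀ := t)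
      (K := (Set.univ : Set C)) (P := fun (s : unitInterval) (c : C) =>
        comp (G s c) (inv (G t c)) ∈ W)
      (by
        intro c _
        have h2 : Continuous (fun z : unitInterval × C => mulC F' (invC Gt) z) :=
          (mulC F' (invC Gt)).continuous
        refine (hW.preimage h2).mem_nhds ?_
        change comp (G t c) (inv (G t c)) ∈ W
        rw [comp_inv_self]
        exact h1W)
    have h2 := isCompact_univ.eventually_forall_of_forall_eventually (x₀ := t)
      (K := (Set.univ : Set C)) (P := fun (s : unitInterval) (c : C) =>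
        comp (G t c) (inv (G s c)) ∈ W)
      (by
        intro c _
        have h2 : Continuous (fun z : unitInterval × C => mulC Gt (invC F') z) :=
          (mulC Gt (invC F')).continuous
        refine (hW.preimage h2).mem_nhds ?_
        change comp (G t c) (inv (G t c)) ∈ W
        rw [comp_inv_self]
        exact h1W)
    filter_upwards [h1, h2] with s hs hs'
    exact ⟨hGA s t, fun c => hs c trivial, fun c => hs' c trivial⟩
  let R : Set unitInterval := {t | Relation.ReflTransGen (StepW W A) f (G t)}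
  have hR : IsOpen R := by
    rw [isOpen_iff_mem_nhds]
    intro t ht
    filter_upwards [key t] with s hs
    exact Relation.ReflTransGen.tail ht hs.symm
  have hR' : IsOpen Rᶜ := by
    rw [isOpen_iff_mem_nhds]
    intro t ht
    filter_upwards [key t] with s hs hsS
    exact ht (Relation.ReflTransGen.tail hsS hs)
  have hclopen : IsClopen R := ⟨isOpen_compl_iff.1 hR', hR⟩
  have h0 : G 0 = f := by
    ext1 c
    exact F.apply_zero c
  have h1 : G 1 = g := by
    ext1 c
    exact F.apply_one c
  have hne : R.Nonempty := ⟨0, by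
    change Relation.ReflTransGen (StepW W A) f (G 0)
    rw [h0]⟩
  have h2 : (1 : unitInterval) ∈ R := by
    rw [hclopen.eq_univ hne]
    trivial
  change Relation.ReflTransGen (StepW W A) f (G 1) at h2
  rwa [h1] at h2

/-- **Small factors.** Homotopic families differ by a product of families with values in a given
neighbourhood of the identity. -/
theorem prodW_of_homotopicRel [CompactSpace C] {W : Set (SympCt n)} (hW : IsOpen W)
    (h1W : one ∈ W) (A : Set C) (f g : C(C, SympCt n)) (h : f.HomotopicRel g A) :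
    ∃ l : List C(C, SympCt n),
      (∀ θ ∈ l, (∀ c ∈ A, θ c = one) ∧ ∀ c, θ c ∈ W) ∧
        ∀ c, f c = (l.map fun θ => θ c).foldr comp (g c) := by
  have h1 := chainW_of_homotopicRel hW h1W A g f h.symm
  have h2 : ∃ l : List C(C, SympCt n),
      (∀ θ ∈ l, (∀ c ∈ A, θ c = one) ∧ ∀ c, θ c ∈ W) ∧ f = l.foldr mulC g := by
    clear h
    induction h1 with
    | refl => exact ⟨[], by simp, rfl⟩
    | tail _ hbc ih =>
      rename_i a b _
      obtain ⟨l, hl, hb⟩ := ih
      refine ⟨mulC b (invC a) :: l, ?_, ?_⟩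
      · intro θ hθ
        rcases List.mem_cons.1 hθ with rfl | hθ
        · refine ⟨fun c hc => ?_, fun c => ?_⟩
          · rw [mulC_apply, invC_apply, hbc.1 c hc, comp_inv_self]
          · rw [mulC_apply, invC_apply]
            exact hbc.2.2 c
        · exact hl θ hθ
      · rw [List.foldr_cons, ← hb]
        ext1 c
        rw [mulC_apply, mulC_apply, invC_apply, comp_inv_comp]
  obtain ⟨l, hl, rfl⟩ := h2
  exact ⟨l, hl, fun c => foldr_apply l g c⟩

end

/-- the symmetric part of `∂X/∂x` is positive definite everywhere, where `θ = (X, Y)` -/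
def PosX (θ : SympCt n) : Prop :=
  ∀ x (u : Fin n → ℝ), u ≠ 0 → 0 < ∑ i, u i * (fderiv ℝ θ.toEquiv x (u, 0)).1 i

theorem sum_sq_pos {u : Fin n → ℝ} (hu : u ≠ 0) : 0 < ∑ i, u i * u i := by
  obtain ⟨j, hj⟩ := Function.ne_iff.1 hu
  refine Finset.sum_pos' (fun i _ => mul_self_nonneg _) ⟨j, Finset.mem_univ j, ?_⟩
  exact mul_self_pos.2 hj

theorem posX_one : PosX (one : SympCt n) := by
  intro x u hu
  simp only [fderiv_one]
  exact sum_sq_pos hu

/-- the condition is open -/
theorem isOpen_posX : IsOpen {θ : SympCt n | PosX θ} := by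
  refine isOpen_iSup_iff.2 fun C => ?_
  refine isOpen_coinduced.2 ?_
  let _ : TopologicalSpace (supportedIn (C : Set (R2 n))) := smoothTopology (C : Set (R2 n))
  have hK : IsCompact (C : Set (R2 n)) := C.isCompact
  have h1 : Continuous (fun φ : supportedIn (C : Set (R2 n)) => φ.1) :=
    continuous_val _ C.isCompact
  rw [isOpen_iff_mem_nhds]
  intro φ hφ
  have hQ : IsCompact ((C : Set (R2 n)) ×ˢ (Metric.sphere (0 : Fin n → ℝ) 1)) :=
    hK.prod (isCompact_sphere _ _)
  have hcf := continuous_fderiv_family h1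
  have h3 : Continuous (fun z : supportedIn (C : Set (R2 n)) × (R2 n × (Fin n → ℝ)) =>
      ∑ i, z.2.2 i * (fderiv ℝ z.1.1.toEquiv z.2.1 ((z.2.2, 0) : R2 n)).1 i) := by
    have e3 : Continuous (fun z : supportedIn (C : Set (R2 n)) × (R2 n × (Fin n → ℝ)) =>
        z.2.2) := continuous_snd.comp continuous_snd
    have h4 : Continuous (fun z : supportedIn (C : Set (R2 n)) × (R2 n × (Fin n → ℝ)) =>
        fderiv ℝ z.1.1.toEquiv z.2.1 ((z.2.2, 0) : R2 n)) :=
      (hcf.comp (continuous_fst.prodMk (continuous_fst.comp continuous_snd))).clm_apply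
        (e3.prodMk continuous_const)
    refine continuous_finsetSum _ fun i _ => ?_
    exact ((continuous_apply i).comp e3).mul ((continuous_apply i).comp (continuous_fst.comp h4))
  have h4 := hQ.eventually_forall_of_forall_eventually (x₀ := φ)
    (P := fun (χ : supportedIn (C : Set (R2 n))) (z : R2 n × (Fin n → ℝ)) =>
      0 < ∑ i, z.2 i * (fderiv ℝ χ.1.toEquiv z.1 ((z.2, 0) : R2 n)).1 i)
    (by
      rintro ⟨x, u⟩ ⟨_, hu⟩
      refine (isOpen_lt continuous_const h3).mem_nhds ?_
      refine hφ x u ?_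
      intro h
      have hu' : u ∈ Metric.sphere (0 : Fin n → ℝ) 1 := hu
      rw [h] at hu'
      simp at hu')
  filter_upwards [h4] with χ hχ
  change PosX χ.1
  intro x u hu
  by_cases hx : x ∈ (C : Set (R2 n))
  · have hu0 : 0 < ‖u‖ := norm_pos_iff.2 hu
    have h5 := hχ (x, ‖u‖⁻¹ • u) ⟨hx, by
      change ‖u‖⁻¹ • u ∈ Metric.sphere (0 : Fin n → ℝ) 1
      rw [mem_sphere_zero_iff_norm, norm_smul, norm_inv, norm_norm, inv_mul_cancel₀ hu0.ne']⟩
    have h6 : ((‖u‖⁻¹ • u, 0) : R2 n) = ‖u‖⁻¹ • ((u, 0) : R2 n) := by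
      rw [Prod.smul_mk, smul_zero]
    have h7 : ∑ i, (‖u‖⁻¹ • u) i * (fderiv ℝ χ.1.toEquiv x ((‖u‖⁻¹ • u, 0) : R2 n)).1 i =
        (‖u‖⁻¹ * ‖u‖⁻¹) * ∑ i, u i * (fderiv ℝ χ.1.toEquiv x ((u, 0) : R2 n)).1 i := by
      rw [h6, map_smul, Finset.mul_sum]
      refine Finset.sum_congr rfl fun i _ => ?_
      simp only [Prod.smul_fst, Pi.smul_apply, smul_eq_mul]
      ring
    change 0 < ∑ i, (‖u‖⁻¹ • u) i * (fderiv ℝ χ.1.toEquiv x ((‖u‖⁻¹ • u, 0) : R2 n)).1 i at h5
    rw [h7] at h5
    exact (pos_iff_pos_of_mul_pos h5).1 (by positivity)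
  · have h8 : ∀ v, fderiv ℝ χ.1.toEquiv x v = v := fun v => fderiv_out_supp hK χ.2 hx v
    simp only [h8]
    exact sum_sq_pos hu

/-- **Homotopy classes by products of families with positive definite `∂X/∂x`.** -/
theorem homotopicRel_iff_posX {C : Type*} [TopologicalSpace C] [CompactSpace C] (A : Set C)
    (f g : C(C, SympCt n)) : f.HomotopicRel g A ↔ ∃ l : List C(C, SympCt n),
      (∀ θ ∈ l, (∀ c ∈ A, θ c = one) ∧ ∀ c, PosX (θ c)) ∧
        ∀ c, f c = (l.map fun θ => θ c).foldr comp (g c) := by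
  constructor
  · exact prodW_of_homotopicRel isOpen_posX posX_one A f g
  · rintro ⟨l, hl, hf⟩
    refine homotopicRel_of_prod A f g l (fun θ hθ => ⟨(hl θ hθ).1, fun _ => lagS projX,
      continuous_const, fun _ => projX_lag.inSp, fun c => ?_⟩) hf
    exact (lagGood_iff projX_lag _).1 (lagGood_projX_of_pos ((hl θ hθ).2 c))

end Pool.Agent.U145.EC
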