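import Pool.Agent.U145.EC.GenS

/-!
# Homotopy classes and products of families of all linear types
-/

set_option autoImplicit false
set_option maxHeartbeats 400000

open scoped ContDiff Topology NNReal

namespace Pool.Agent.U145.EC

open Pool.Agent.W71.EC Pool.Agent.W5h83.HG

variable {n : ℕ}

theorem eq_of_eqS {P : Type*} {S : P → (R2 n →L[ℝ] R2 n)} {f g : P → SympCt n} {t : ℝ} {p : P}
    {χ : SympCt n} (hfg : f p = g p)
    (h1 : ∀ x, χ.toEquiv (((g p).toEquiv.symm) (nuS S f g (ta t) p x)) =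
        nuQ S f g (ta t) p x) : χ = g p := by
  refine SympCt.ext' fun x => ?_
  have h2 := h1 x
  have h3 : ∀ s, nuS S f g s p x = (g p).toEquiv x := by
    intro s
    simp only [nuS]
    rw [hfg, sub_self, map_zero, smul_zero, add_zero]
  have h4 : ∀ s, nuQ S f g s p x = (g p).toEquiv x := by
    intro s
    simp only [nuQ]
    rw [h3, hfg, sub_self, smul_zero, add_zero]
  rw [h3, h4, Equiv.symm_apply_apply] at h2
  exact h2

section

variable {C : Type*} [TopologicalSpace C] [CompactSpace C]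

/-- **Families related by type `S` are homotopic**, relative to the set where they agree, through
families related to the second one. -/
theorem homotopicRel_of_unopp (f g : C(C, SympCt n)) {S : C → (R2 n →L[ℝ] R2 n)}
    (hSc : Continuous S) (hS : ∀ c, InSp (S c)) (hn : ∀ c, Unopp (S c) (f c) (g c)) (A : Set C)
    (hA : ∀ c ∈ A, f c = g c) : ∃ F : g.HomotopyRel f A, ∀ t c, Unopp (S c) (F (t, c)) (g c) := by
  obtain ⟨m, hm⟩ := supp_unif (isCompact_range f.continuous)
  obtain ⟨m', hm'⟩ := supp_unif (isCompact_range g.continuous)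
  have hK := (isCompact_closedBall (0 : R2 n) m).union (isCompact_closedBall (0 : R2 n) m')
  obtain ⟨H, hJ, hs, h0, h1, hH, _, hu⟩ := exists_homotopyS hSc hS (JS.of_continuous f.continuous)
    (JS.of_continuous g.continuous) hK
    (fun c => W5h83.HG.supp_mono Set.subset_union_left (hm _ ⟨c, rfl⟩))
    (fun c => W5h83.HG.supp_mono Set.subset_union_right (hm' _ ⟨c, rfl⟩)) hn
  have hc : Continuous H := hJ.continuous _ hK hs
  have hc' : Continuous (fun z : unitInterval × C => H ((z.1 : ℝ), z.2)) :=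
    hc.comp ((continuous_subtype_val.comp continuous_fst).prodMk continuous_snd)
  refine ⟨⟨⟨⟨_, hc'⟩, ?_, ?_⟩, ?_⟩, ?_⟩
  · intro p
    change H (((0 : unitInterval) : ℝ), p) = g p
    rw [Set.Icc.coe_zero, h0]
  · intro p
    change H (((1 : unitInterval) : ℝ), p) = f p
    rw [Set.Icc.coe_one, h1]
  · intro t p hp
    exact eq_of_eqS (hA p hp) (fun x => hH t p x)
  · intro t c
    exact hu t c

end

/-- being related is an open condition on families over a compact space -/
theorem eventually_unopp {T C : Type*} [TopologicalSpace T] [TopologicalSpace C]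
    [CompactSpace C] {t₀ : T} (f g : T → C → SympCt n) {S : C → (R2 n →L[ℝ] R2 n)}
    (hS : Continuous S) {K : Set (R2 n)}
    (hK : IsCompact K) (hfK : ∀ t c, f t c ∈ supportedIn K) (hgK : ∀ t c, g t c ∈ supportedIn K)
    (hcf : Continuous fun z : T × (C × R2 n) => fderiv ℝ (f z.1 z.2.1).toEquiv z.2.2)
    (hcg : Continuous fun z : T × (C × R2 n) => fderiv ℝ (g z.1 z.2.1).toEquiv z.2.2)
    (h0 : ∀ c, Unopp (S c) (f t₀ c) (g t₀ c)) :
    ∀ᶠ t in 𝓝 t₀, ∀ c, Unopp (S c) (f t c) (g t c) := by
  have hQ : IsCompact ((Set.univ : Set C) ×ˢ (K ×ˢ (Metric.sphere (0 : R2 n) 1 ×ˢ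
      Set.Icc (0 : ℝ) 1))) :=
    isCompact_univ.prod (hK.prod ((isCompact_sphere _ _).prod isCompact_Icc))
  have h3 : Continuous (fun z : T × (C × (R2 n × (R2 n × ℝ))) =>
      fderiv ℝ (g z.1 z.2.1).toEquiv z.2.2.1 z.2.2.2.1 +
        z.2.2.2.2 • RR (S z.2.1) (fderiv ℝ (f z.1 z.2.1).toEquiv z.2.2.1 z.2.2.2.1 -
          fderiv ℝ (g z.1 z.2.1).toEquiv z.2.2.1 z.2.2.2.1)) := by
    have e2 : Continuous (fun z : T × (C × (R2 n × (R2 n × ℝ))) => z.2.1) :=
      continuous_fst.comp continuous_snd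
    have e3 : Continuous (fun z : T × (C × (R2 n × (R2 n × ℝ))) => z.2.2.1) :=
      continuous_fst.comp (continuous_snd.comp continuous_snd)
    have e4 : Continuous (fun z : T × (C × (R2 n × (R2 n × ℝ))) => z.2.2.2.1) :=
      continuous_fst.comp (continuous_snd.comp (continuous_snd.comp continuous_snd))
    have e5 : Continuous (fun z : T × (C × (R2 n × (R2 n × ℝ))) => z.2.2.2.2) :=
      continuous_snd.comp (continuous_snd.comp (continuous_snd.comp continuous_snd))
    have h4 : Continuous (fun z : T × (C × (R2 n × (R2 n × ℝ))) =>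
        fderiv ℝ (f z.1 z.2.1).toEquiv z.2.2.1 z.2.2.2.1) :=
      (hcf.comp (continuous_fst.prodMk (e2.prodMk e3))).clm_apply e4
    have h5 : Continuous (fun z : T × (C × (R2 n × (R2 n × ℝ))) =>
        fderiv ℝ (g z.1 z.2.1).toEquiv z.2.2.1 z.2.2.2.1) :=
      (hcg.comp (continuous_fst.prodMk (e2.prodMk e3))).clm_apply e4
    exact h5.add (e5.smul (((RR_continuous.comp hS).comp e2).clm_apply (h4.sub h5)))
  have h4 := hQ.eventually_forall_of_forall_eventually (x₀ := t₀)
    (P := fun (t : T) (z : C × (R2 n × (R2 n × ℝ))) =>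
      fderiv ℝ (g t z.1).toEquiv z.2.1 z.2.2.1 +
        z.2.2.2 • RR (S z.1) (fderiv ℝ (f t z.1).toEquiv z.2.1 z.2.2.1 -
          fderiv ℝ (g t z.1).toEquiv z.2.1 z.2.2.1) ≠ 0)
    (by
      rintro ⟨c, x, v, r⟩ ⟨_, _, hv, hr⟩
      refine (isOpen_ne_fun h3 continuous_const).mem_nhds ?_
      refine h0 c x v ?_ r hr
      intro h
      have hv' : v ∈ Metric.sphere (0 : R2 n) 1 := hv
      rw [h] at hv'
      simp at hv')
  filter_upwards [h4] with t ht c x v hv r hr
  by_cases hx : x ∈ K
  · have hv0 : 0 < ‖v‖ := norm_pos_iff.2 hv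
    have h5 := ht (c, x, ‖v‖⁻¹ • v, r) ⟨trivial, hx, by
      change ‖v‖⁻¹ • v ∈ Metric.sphere (0 : R2 n) 1
      rw [mem_sphere_zero_iff_norm, norm_smul, norm_inv, norm_norm, inv_mul_cancel₀ hv0.ne'],
      hr⟩
    intro h6
    apply h5
    change fderiv ℝ (g t c).toEquiv x (‖v‖⁻¹ • v) +
      r • RR (S c) (fderiv ℝ (f t c).toEquiv x (‖v‖⁻¹ • v) -
        fderiv ℝ (g t c).toEquiv x (‖v‖⁻¹ • v)) = 0
    rw [map_smul, map_smul, ← smul_sub, map_smul, smul_comm r, ← smul_add, h6, smul_zero]
  · rw [fderiv_out_supp hK (hgK t c) hx, fderiv_out_supp hK (hfK t c) hx, sub_self, map_zero,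
      smul_zero, add_zero]
    exact hv

section

variable {C : Type*} [TopologicalSpace C]

/-- equal on `A` and related in both directions -/
def StepS (S : C → (R2 n →L[ℝ] R2 n)) (A : Set C) (f g : C(C, SympCt n)) : Prop :=
  (∀ c ∈ A, f c = g c) ∧ (∀ c, Unopp (S c) (f c) (g c)) ∧ ∀ c, Unopp (S c) (g c) (f c)

theorem StepS.symm {S : C → (R2 n →L[ℝ] R2 n)} {A : Set C} {f g : C(C, SympCt n)}
    (h : StepS S A f g) : StepS S A g f :=
  ⟨fun c hc => (h.1 c hc).symm, h.2.2, h.2.1⟩

/-- homotopic families are joined by chains -/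
theorem chain_of_homotopicRel [CompactSpace C] {S : C → (R2 n →L[ℝ] R2 n)} (hS : Continuous S)
    (A : Set C) (f g : C(C, SympCt n)) (h : f.HomotopicRel g A) :
    Relation.ReflTransGen (StepS S A) f g := by
  obtain ⟨F⟩ := h
  obtain ⟨m, hm⟩ := supp_unif (isCompact_range F.continuous)
  let G : unitInterval → C(C, SympCt n) := fun t => F.toHomotopy.curry t
  have hG : ∀ t c, G t c = F (t, c) := fun _ _ => rfl
  have hGA : ∀ s t, ∀ c ∈ A, G s c = G t c := by
    intro s t c hc
    rw [hG, hG, F.eq_fst s hc, F.eq_fst t hc]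
  have hsupp : ∀ t c, G t c ∈ supportedIn (Metric.closedBall (0 : R2 n) m) := fun t c =>
    hm _ ⟨(t, c), rfl⟩
  have hcv : Continuous fun z : unitInterval × (C × R2 n) =>
      fderiv ℝ (G z.1 z.2.1).toEquiv z.2.2 :=
    (continuous_fderiv_family (P := unitInterval × C) F.continuous).comp
      ((continuous_fst.prodMk (continuous_fst.comp continuous_snd)).prodMk
        (continuous_snd.comp continuous_snd))
  have hcc : ∀ t, Continuous fun z : unitInterval × (C × R2 n) =>
      fderiv ℝ (G t z.2.1).toEquiv z.2.2 := fun t =>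
    (continuous_fderiv_family (P := C) (G t).continuous).comp continuous_snd
  have key : ∀ t, ∀ᶠ s in 𝓝 t, StepS S A (G s) (G t) := by
    intro t
    have h1 := eventually_unopp (t₀ := t) (fun s c => G s c) (fun _ c => G t c) hS
      (isCompact_closedBall (0 : R2 n) m) hsupp (fun _ => hsupp t) hcv (hcc t)
      (fun c => Unopp.refl _ _)
    have h2 := eventually_unopp (t₀ := t) (fun _ c => G t c) (fun s c => G s c) hS
      (isCompact_closedBall (0 : R2 n) m) (fun _ => hsupp t) hsupp (hcc t) hcv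
      (fun c => Unopp.refl _ _)
    filter_upwards [h1, h2] with s hs hs'
    exact ⟨hGA s t, hs, hs'⟩
  let R : Set unitInterval := {t | Relation.ReflTransGen (StepS S A) f (G t)}
  have hR : IsOpen R := by
    rw [isOpen_iff_mem_nhds]
    intro t ht
    filter_upwards [key t] with s hs
    exact Relation.ReflTransGen.tail ht hs.symm
  have hR' : IsOpen Rᶜ := by
    rw [isOpen_iff_mem_nhds]
    intro t ht
    filter_upwards [key t] with s hs hsS
    exact ht (Relation.ReflTransGen.tail hsS hs)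
  have hclopen : IsClopen R := ⟨isOpen_compl_iff.1 hR', hR⟩
  have h0 : G 0 = f := by
    ext1 c
    exact F.apply_zero c
  have h1 : G 1 = g := by
    ext1 c
    exact F.apply_one c
  have hne : R.Nonempty := ⟨0, by
    change Relation.ReflTransGen (StepS S A) f (G 0)
    rw [h0]⟩
  have h2 : (1 : unitInterval) ∈ R := by
    rw [hclopen.eq_univ hne]
    trivial
  change Relation.ReflTransGen (StepS S A) f (G 1) at h2
  rwa [h1] at h2

/-- a product of families, each of its own type, is homotopic to the last factor -/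
theorem homotopicRel_of_prod [CompactSpace C] (A : Set C) (f g : C(C, SympCt n))
    (l : List C(C, SympCt n))
    (hl : ∀ θ ∈ l, (∀ c ∈ A, θ c = one) ∧ ∃ S : C → (R2 n →L[ℝ] R2 n), Continuous S ∧
      (∀ c, InSp (S c)) ∧ ∀ c, Unopp (S c) (θ c) one)
    (hf : ∀ c, f c = (l.map fun θ => θ c).foldr comp (g c)) : f.HomotopicRel g A := by
  have h2 : f = l.foldr mulC g := by
    ext1 c
    rw [foldr_apply]
    exact hf c
  subst h2
  clear hf
  induction l with
  | nil => exact ContinuousMap.HomotopicRel.refl _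
  | cons θ l ih =>
    rw [List.foldr_cons]
    refine ContinuousMap.HomotopicRel.trans ?_ (ih fun χ hχ => hl χ (List.mem_cons_of_mem _ hχ))
    obtain ⟨h3, S, hSc, hS, h4⟩ := hl θ List.mem_cons_self
    obtain ⟨F, _⟩ := homotopicRel_of_unopp (mulC θ (l.foldr mulC g)) (l.foldr mulC g) hSc hS
      (fun c => (h4 c).mul _) A (fun c hc => by rw [mulC_apply, h3 c hc, one_comp])
    exact ContinuousMap.HomotopicRel.symm ⟨F⟩

/-- homotopic families differ by a product of families of the given type -/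
theorem prod_of_homotopicRel [CompactSpace C] {S : C → (R2 n →L[ℝ] R2 n)} (hS : Continuous S)
    (A : Set C) (f g : C(C, SympCt n)) (h : f.HomotopicRel g A) :
    ∃ l : List C(C, SympCt n),
      (∀ θ ∈ l, (∀ c ∈ A, θ c = one) ∧ ∀ c, Unopp (S c) (θ c) one) ∧
        ∀ c, f c = (l.map fun θ => θ c).foldr comp (g c) := by
  have h1 := chain_of_homotopicRel hS A g f h.symm
  have h2 : ∃ l : List C(C, SympCt n),
      (∀ θ ∈ l, (∀ c ∈ A, θ c = one) ∧ ∀ c, Unopp (S c) (θ c) one) ∧ f = l.foldr mulC g := by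
    clear h
    induction h1 with
    | refl => exact ⟨[], by simp, rfl⟩
    | tail _ hbc ih =>
      rename_i a b _
      obtain ⟨l, hl, hb⟩ := ih
      refine ⟨mulC b (invC a) :: l, ?_, ?_⟩
      · intro θ hθ
        rcases List.mem_cons.1 hθ with rfl | hθ
        · refine ⟨fun c hc => ?_, fun c => ?_⟩
          · rw [mulC_apply, invC_apply, hbc.1 c hc, comp_inv_self]
          · rw [mulC_apply, invC_apply]
            exact (hbc.2.2 c).quot
        · exact hl θ hθ
      · rw [List.foldr_cons, ← hb]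
        ext1 c
        rw [mulC_apply, mulC_apply, invC_apply, comp_inv_comp]
  obtain ⟨l, hl, rfl⟩ := h2
  exact ⟨l, hl, fun c => foldr_apply l g c⟩

end

end Pool.Agent.U145.EC
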